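import Pool.Agent.Y760.LY.C

/-!
# Multiple zeta values at Lyndon words satisfy no polynomial relation of exponential height
(helper760)
-/

set_option autoImplicit false

namespace Pool.Agent.Y760.LY

open Pool.Agent.Y760.ZF (sti stil sti_length Cl co mainM)
open Pool.Agent.Y760.ZG (mz)

section

variable {k d : ℕ} (w : Fin k → List ℕ)

/-- the list of the words of a monomial -/
def Me (e : Fin k → ℕ) : List (List ℕ) := (List.ofFn fun i => List.replicate (e i) (w i)).flatten

lemma mem_Me {e : Fin k → ℕ} {u : List ℕ} (h : u ∈ Me w e) : ∃ i, u = w i := by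
  unfold Me at h
  rw [List.mem_flatten] at h
  obtain ⟨m, hm, hu⟩ := h
  rw [List.mem_ofFn] at hm
  obtain ⟨i, rfl⟩ := hm
  exact ⟨i, List.eq_of_mem_replicate hu⟩

lemma Me_length (e : Fin k → ℕ) : (Me w e).length = ∑ i, e i := by
  unfold Me
  rw [List.length_flatten, List.map_ofFn, List.sum_ofFn]
  refine Finset.sum_congr rfl fun i _ => ?_
  simp

lemma Me_prod (e : Fin k → ℕ) : ((Me w e).map mz).prod = ∏ i, mz (w i) ^ e i := by
  unfold Me
  rw [List.map_flatten, List.prod_flatten, List.map_map, List.map_ofFn, List.prod_ofFn]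
  refine Finset.prod_congr rfl fun i _ => ?_
  simp

lemma Me_count (hw : Function.Injective w) (e : Fin k → ℕ) (i : Fin k) :
    (Me w e).count (w i) = e i := by
  unfold Me
  rw [List.count_flatten, List.map_ofFn, List.sum_ofFn, Finset.sum_eq_single i]
  · simp
  · intro j _ hj
    simp only [Function.comp]
    rw [List.count_replicate, if_neg]
    simp only [beq_iff_eq]
    intro h
    exact hj (hw h)
  · intro h
    exact absurd (Finset.mem_univ i) h

lemma Me_perm (hw : Function.Injective w) {e e' : Fin k → ℕ} (h : (Me w e).Perm (Me w e')) :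
    e = e' := by
  funext i
  rw [← Me_count w hw e i, ← Me_count w hw e' i]
  exact h.count_eq _

/-- the exponents -/
noncomputable def ef (f : Fin k → Fin (d + 1)) : Fin k →₀ ℕ :=
  Finsupp.equivFunOnFinite.symm fun i => (f i : ℕ)

lemma ef_apply (f : Fin k → Fin (d + 1)) (i : Fin k) : ef f i = (f i : ℕ) := rfl

lemma ef_inj : Function.Injective (ef : (Fin k → Fin (d + 1)) → (Fin k →₀ ℕ)) := by
  intro f g h
  funext i
  apply Fin.ext
  rw [← ef_apply, h, ef_apply]

/-- the coefficients of the products -/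
noncomputable def cc {l : ℕ} (P : Fin l → MvPolynomial (Fin k) ℤ) (M : List (List ℕ)) (j : Fin l) :
    ℤ := (P j).coeff (Finsupp.equivFunOnFinite.symm fun i => M.count (w i))

lemma cc_Me (hw : Function.Injective w) {l : ℕ} (P : Fin l → MvPolynomial (Fin k) ℤ)
    (f : Fin k → Fin (d + 1)) (j : Fin l) : cc w P (Me w (ef f)) j = (P j).coeff (ef f) := by
  unfold cc
  congr 1
  ext i
  show (Me w (ef f)).count (w i) = ef f i
  rw [Me_count w hw]

lemma aeval_ef {P : MvPolynomial (Fin k) ℤ} (hP : P.totalDegree ≤ d) (x : Fin k → ℝ) :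
    MvPolynomial.aeval x P = ∑ f : Fin k → Fin (d + 1), ((P.coeff (ef f) : ℤ) : ℝ) *
      ∏ i, x i ^ (ef f i) := by
  rw [MvPolynomial.aeval_def, MvPolynomial.eval₂_eq']
  have h1 : ∀ e ∈ P.support, ∃ f : Fin k → Fin (d + 1), ef f = e := by
    intro e he
    refine ⟨fun i => ⟨e i, ?_⟩, ?_⟩
    · have h2 := MvPolynomial.le_totalDegree he
      have h3 : e i ≤ e.sum fun _ m => m := by
        rw [Finsupp.sum_fintype _ _ fun _ => rfl]
        exact Finset.single_le_sum (f := fun i => e i) (fun _ _ => Nat.zero_le _)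
          (Finset.mem_univ i)
      omega
    · ext i
      rfl
  rw [← Finset.sum_image (s := Finset.univ) (g := ef) (f := fun e : Fin k →₀ ℕ =>
    ((P.coeff e : ℤ) : ℝ) * ∏ i, x i ^ (e i)) (fun f _ g _ h => ef_inj h)]
  refine Finset.sum_subset (fun e he => ?_) (fun e _ he => ?_)
  · obtain ⟨f, hf⟩ := h1 e he
    exact Finset.mem_image.2 ⟨f, Finset.mem_univ _, hf⟩
  · rw [MvPolynomial.notMem_support_iff] at he
    rw [he]
    simp

end

/-- **multiple zeta values at Lyndon words** -/
theorem lynMain {l k : ℕ} (β : Fin l → ℝ) (hβ : ∀ j, IsAlgebraic ℚ (β j))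
    (hli : LinearIndependent ℚ β) (r d : ℕ) (κ C : ℝ) :
    ∃ B : ℝ, 1 < B ∧ ∃ n0 : ℕ, ∀ n : ℕ, n0 ≤ n → ∀ w : Fin k → List ℕ, Function.Injective w →
      (∀ i, Lyn (w i) ∧ Cl n (κ * n) r (w i)) → ∀ P : Fin l → MvPolynomial (Fin k) ℤ, P ≠ 0 →
      (∀ j, (P j).totalDegree ≤ d) → (∀ j e, |(((P j).coeff e : ℤ) : ℝ)| ≤ C ^ n) →
      (B ^ n)⁻¹ < |∑ j, β j * MvPolynomial.aeval (fun i => mz (w i)) (P j)| := by
  classical
  obtain ⟨B, hB, n0, hmain⟩ := mainM β hβ hli ((d + 1) ^ k) r (k * d) κ C
  refine ⟨B, hB, n0, fun n hn w hw hL P hP hdeg hC => ?_⟩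
  set T : Finset (List (List ℕ)) := Finset.univ.image fun f : Fin k → Fin (d + 1) => Me w (ef f)
    with hT
  have hMinj : Function.Injective fun f : Fin k → Fin (d + 1) => Me w (ef f) := by
    intro f g h
    apply ef_inj
    ext i
    have h1 : Me w (ef f) = Me w (ef g) := h
    rw [← Me_count w hw (ef f) i, h1, Me_count w hw (ef g) i]
  have hsumT : ∀ {M : Type} [AddCommMonoid M] (F : List (List ℕ) → M),
      ∑ m ∈ T, F m = ∑ f : Fin k → Fin (d + 1), F (Me w (ef f)) := by
    intro M _ F
    rw [hT, Finset.sum_image fun f _ g _ h => hMinj h]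
  have h1 := hmain n hn T (by
      refine Finset.card_image_le.trans ?_
      rw [Finset.card_univ, Fintype.card_pi, Finset.prod_const, Fintype.card_fin, Finset.card_univ,
        Fintype.card_fin]) (by
      intro M hM
      obtain ⟨f, _, rfl⟩ := Finset.mem_image.1 hM
      refine ⟨?_, fun u hu => ?_⟩
      · rw [Me_length]
        calc ∑ i, ef f i ≤ ∑ _i : Fin k, d := Finset.sum_le_sum fun i _ => by
              rw [ef_apply]
              have := (f i).2
              omega
          _ = k * d := by rw [Finset.sum_const, Finset.card_univ, Fintype.card_fin, smul_eq_mul]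
      · obtain ⟨i, rfl⟩ := mem_Me w hu
        exact (hL i).2) (cc w P) (fun M _ j => hC j _)
  have hval : ∑ M ∈ T, (∑ j, β j * cc w P M j) * (M.map mz).prod =
      ∑ j, β j * MvPolynomial.aeval (fun i => mz (w i)) (P j) := by
    rw [hsumT]
    have h2 : ∀ j, β j * MvPolynomial.aeval (fun i => mz (w i)) (P j) =
        ∑ f : Fin k → Fin (d + 1), (β j * (((P j).coeff (ef f) : ℤ) : ℝ)) *
          ∏ i, mz (w i) ^ (ef f i) := by
      intro j
      rw [aeval_ef (hdeg j), Finset.mul_sum]
      exact Finset.sum_congr rfl fun f _ => (mul_assoc _ _ _).symm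
    rw [Finset.sum_congr rfl fun j _ => h2 j, Finset.sum_comm]
    refine Finset.sum_congr rfl fun f _ => ?_
    rw [Me_prod, Finset.sum_mul]
    refine Finset.sum_congr rfl fun j _ => ?_
    rw [cc_Me w hw]
  rw [hval] at h1
  rcases h1 with ⟨h1, _⟩ | h1
  swap
  · exact h1
  exfalso
  -- a polynomial which is not zero
  obtain ⟨j0, hj0⟩ : ∃ j, P j ≠ 0 := by
    by_contra hcon
    push Not at hcon
    exact hP (funext hcon)
  obtain ⟨e0, he0⟩ := MvPolynomial.ne_zero_iff.1 hj0
  obtain ⟨f0, hf0⟩ : ∃ f : Fin k → Fin (d + 1), ef f = e0 := by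
    have he0' : e0 ∈ (P j0).support := MvPolynomial.mem_support_iff.2 he0
    refine ⟨fun i => ⟨e0 i, ?_⟩, ?_⟩
    · have h2 := (MvPolynomial.le_totalDegree he0').trans (hdeg j0)
      have h3 : e0 i ≤ e0.sum fun _ m => m := by
        rw [Finsupp.sum_fintype _ _ fun _ => rfl]
        exact Finset.single_le_sum (f := fun i => e0 i) (fun _ _ => Nat.zero_le _)
          (Finset.mem_univ i)
      omega
    · ext i
      rfl
  -- the base
  set b : ℕ := 2 + ∑ i, (w i).sum with hbdef
  have hb : 2 ≤ b := Nat.le_add_right _ _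
  have hwb : ∀ i, ∀ a ∈ w i, a < b := by
    intro i a ha
    have h2 : a ≤ (w i).sum := List.single_le_sum (fun _ _ => Nat.zero_le _) a ha
    have h3 : (w i).sum ≤ ∑ i, (w i).sum :=
      Finset.single_le_sum (f := fun i => (w i).sum) (fun _ _ => Nat.zero_le _) (Finset.mem_univ i)
    omega
  have hMe : ∀ (f : Fin k → Fin (d + 1)), ∀ m ∈ Me w (ef f), Lyn m ∧ ∀ a ∈ m, a < b := by
    intro f m hm
    obtain ⟨i, rfl⟩ := mem_Me w hm
    exact ⟨(hL i).1, hwb i⟩
  choose S hS hSmin hSs using fun f : Fin k → Fin (d + 1) =>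
    arr hb (Me w (ef f)) fun m hm => (hMe f m hm).1
  -- the leading monomial
  set len : (Fin k → Fin (d + 1)) → ℕ := fun f => (Me w (ef f)).flatten.length with hlen
  obtain ⟨f1, hf1, hmax⟩ := Finset.exists_max_image
    (Finset.univ.filter fun f => (P j0).coeff (ef f) ≠ 0) len
    ⟨f0, Finset.mem_filter.2 ⟨Finset.mem_univ _, by rw [hf0]; exact he0⟩⟩
  obtain ⟨f2, hf2, hmin⟩ := Finset.exists_min_image
    (Finset.univ.filter fun f => (P j0).coeff (ef f) ≠ 0 ∧ len f = len f1)
    (fun f => nb b (S f).flatten)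
    ⟨f1, Finset.mem_filter.2 ⟨Finset.mem_univ _, (Finset.mem_filter.1 hf1).2, rfl⟩⟩
  rw [Finset.mem_filter] at hf2
  set v : List ℕ := (S f2).flatten with hv
  have hvlen : v.length = len f2 := perm_flatten_length (hS f2)
  have h2 := h1 v j0
  unfold co at h2
  rw [hsumT, Finset.sum_eq_single f2] at h2
  · rw [cc_Me w hw] at h2
    rcases mul_eq_zero.1 h2 with h3 | h3
    · exact hf2.2.1 h3
    · have h4 : (stil (Me w (ef f2))).countP (· = v) = 0 := by exact_mod_cast h3
      rw [List.countP_eq_zero] at h4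
      have h5 := h4 v (mem_stil _ _ (hS f2))
      simp at h5
  · intro f _ hf
    rw [cc_Me w hw]
    by_cases hcf : (P j0).coeff (ef f) = 0
    · rw [hcf, zero_mul]
    have h3 : (stil (Me w (ef f))).countP (· = v) = 0 := by
      rw [List.countP_eq_zero]
      intro x hx hxv
      rw [decide_eq_true_eq] at hxv
      subst hxv
      have h4 := stil_len _ _ hx
      have h5 : len f ≤ len f1 := hmax f (Finset.mem_filter.2 ⟨Finset.mem_univ _, hcf⟩)
      have h6 : (Me w (ef f)).flatten.length = len f := rfl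
      have h7 : len f = len f1 := by
        have := hf2.2.2
        omega
      obtain ⟨M', hM', hM''⟩ := stil_min hb _ (hMe f) hx (by
        have := hf2.2.2
        omega)
      have h8 := (hSmin f M' hM').trans hM''
      have h9 := hmin f (Finset.mem_filter.2 ⟨Finset.mem_univ _, hcf, h7⟩)
      have h10 : nb b (S f).flatten = nb b v := le_antisymm h8 h9
      have hmemS : ∀ f, ∀ m ∈ S f, Lyn m ∧ ∀ a ∈ m, a < b := fun f m hm =>
        hMe f m ((hS f).subset hm)
      have hltS : ∀ f, ∀ a ∈ (S f).flatten, a < b := by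
        intro f a ha
        rw [List.mem_flatten] at ha
        obtain ⟨m, hm, ha⟩ := ha
        exact (hmemS f m hm).2 a ha
      have h11 : (S f).flatten = v := nb_inj (by
          rw [hvlen, perm_flatten_length (hS f)]
          have := hf2.2.2
          omega) (hltS f) (hltS f2) h10
      have h12 := fact_unique hb (S f) (S f2) (hmemS f) (hmemS f2) (hSs f) (hSs f2) h11
      apply hf
      have h13 : (Me w (ef f)).Perm (Me w (ef f2)) := by
        refine (hS f).symm.trans ?_
        rw [h12]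
        exact hS f2
      exact ef_inj (DFunLike.coe_injective (Me_perm w hw h13))
    rw [h3, Nat.cast_zero, mul_zero]
  · intro h
    exact absurd (Finset.mem_univ _) h

end Pool.Agent.Y760.LY
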