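import Mathlib

/-!
# Lyndon words through numbers in base `b` (helper760)
-/

set_option autoImplicit false

namespace Pool.Agent.Y760.LY

/-- the number with the digits `u` in base `b` -/
def nb (b : ℕ) : List ℕ → ℕ
  | [] => 0
  | a :: u => a * b ^ u.length + nb b u

lemma nb_append (b : ℕ) (u v : List ℕ) : nb b (u ++ v) = nb b u * b ^ v.length + nb b v := by
  induction u with
  | nil => simp [nb]
  | cons a u ih =>
    rw [List.cons_append, nb, nb, ih, List.length_append, pow_add]
    ring

lemma nb_lt {b : ℕ} {u : List ℕ} (h : ∀ a ∈ u, a < b) : nb b u < b ^ u.length := by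
  induction u with
  | nil => simp [nb]
  | cons a u ih =>
    have h1 := ih fun a' ha' => h a' (List.mem_cons_of_mem _ ha')
    have h2 := h a List.mem_cons_self
    rw [nb, List.length_cons, pow_succ]
    have h3 : (a + 1) * b ^ u.length ≤ b * b ^ u.length := Nat.mul_le_mul_right _ h2
    nlinarith only [h1, h3]

lemma nb_inj {b : ℕ} : ∀ {u v : List ℕ}, u.length = v.length → (∀ a ∈ u, a < b) →
    (∀ a ∈ v, a < b) → nb b u = nb b v → u = v := by
  intro u
  induction u with
  | nil =>
    intro v h _ _ _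
    exact (List.length_eq_zero_iff.1 h.symm).symm
  | cons a u ih =>
    intro v h hu hv he
    cases v with
    | nil => simp at h
    | cons c v =>
      simp only [List.length_cons, Nat.add_right_cancel_iff] at h
      have h1 := nb_lt (b := b) fun a' ha' => hu a' (List.mem_cons_of_mem _ ha')
      have h2 := nb_lt (b := b) fun a' ha' => hv a' (List.mem_cons_of_mem _ ha')
      rw [nb, nb, ← h] at he
      rw [← h] at h2
      have h3 : a = c := by
        rcases lt_trichotomy a c with h4 | h4 | h4
        · exfalso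
          have h5 : (a + 1) * b ^ u.length ≤ c * b ^ u.length := Nat.mul_le_mul_right _ h4
          nlinarith only [h5, he, h1, h2]
        · exact h4
        · exfalso
          have h5 : (c + 1) * b ^ u.length ≤ a * b ^ u.length := Nat.mul_le_mul_right _ h4
          nlinarith only [h5, he, h1, h2]
      subst h3
      rw [ih h (fun a' ha' => hu a' (List.mem_cons_of_mem _ ha'))
        (fun a' ha' => hv a' (List.mem_cons_of_mem _ ha')) (by omega)]

lemma lex_nb {b : ℕ} : ∀ {u v : List ℕ}, u.length = v.length → (∀ a ∈ u, a < b) →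
    (∀ a ∈ v, a < b) → u < v → nb b u < nb b v := by
  intro u
  induction u with
  | nil =>
    intro v h _ _ he
    rw [List.length_eq_zero_iff.1 h.symm] at he
    exact absurd he (List.not_lt_nil _)
  | cons a u ih =>
    intro v h hu hv he
    cases v with
    | nil => simp at h
    | cons c v =>
      simp only [List.length_cons, Nat.add_right_cancel_iff] at h
      rw [List.cons_lt_cons_iff] at he
      rw [nb, nb, ← h]
      rcases he with he | ⟨rfl, he⟩
      · have h1 := nb_lt (b := b) fun a' ha' => hu a' (List.mem_cons_of_mem _ ha')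
        have h5 : (a + 1) * b ^ u.length ≤ c * b ^ u.length := Nat.mul_le_mul_right _ he
        nlinarith only [h5, h1]
      · have := ih h (fun a' ha' => hu a' (List.mem_cons_of_mem _ ha'))
          (fun a' ha' => hv a' (List.mem_cons_of_mem _ ha')) he
        omega

lemma nb_mid {b : ℕ} (A B : List ℕ) {x y : List ℕ} (hl : x.length = y.length)
    (h : nb b x ≤ nb b y) : nb b (A ++ (x ++ B)) ≤ nb b (A ++ (y ++ B)) := by
  simp only [nb_append, List.length_append, hl]
  have h1 : nb b x * b ^ B.length ≤ nb b y * b ^ B.length := Nat.mul_le_mul_right _ h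
  omega

/-- the number with period `u` -/
noncomputable def ro (b : ℕ) (u : List ℕ) : ℝ := (nb b u : ℝ) / ((b : ℝ) ^ u.length - 1)

section

variable {b : ℕ} (hb : 2 ≤ b)
include hb

lemma den_pos {u : List ℕ} (hu : u ≠ []) : (0 : ℝ) < (b : ℝ) ^ u.length - 1 := by
  have h1 : (1 : ℝ) < b := by exact_mod_cast hb
  have h2 : 1 < (b : ℝ) ^ u.length := one_lt_pow₀ h1 (by
    rw [Ne, List.length_eq_zero_iff]
    exact hu)
  linarith only [h2]

lemma ro_avg {u v : List ℕ} (hu : u ≠ []) (hv : v ≠ []) :
    ((b : ℝ) ^ (u ++ v).length - 1) * ro b (u ++ v) =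
      (((b : ℝ) ^ u.length - 1) * (b : ℝ) ^ v.length) * ro b u +
        ((b : ℝ) ^ v.length - 1) * ro b v := by
  have h1 := den_pos hb hu
  have h2 := den_pos hb hv
  have h3 := den_pos hb (u := u ++ v) (by simp [hu])
  unfold ro
  rw [mul_div_cancel₀ _ h3.ne', mul_div_cancel₀ _ h2.ne', nb_append]
  push_cast
  field_simp

lemma ro_between_le {u v : List ℕ} (hu : u ≠ []) (hv : v ≠ []) {c : ℝ} (h1 : c ≤ ro b u)
    (h2 : c ≤ ro b v) : c ≤ ro b (u ++ v) := by
  have h3 := ro_avg hb hu hv
  have hd1 := den_pos hb hu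
  have hd2 := den_pos hb hv
  have hd3 := den_pos hb (u := u ++ v) (by simp [hu])
  have hp : (0 : ℝ) < (b : ℝ) ^ v.length := by positivity
  have e1 : (b : ℝ) ^ (u ++ v).length - 1 = (((b : ℝ) ^ u.length - 1) * (b : ℝ) ^ v.length) +
      ((b : ℝ) ^ v.length - 1) := by
    rw [List.length_append, pow_add]
    ring
  by_contra hcon
  push Not at hcon
  have h4 : ((b : ℝ) ^ (u ++ v).length - 1) * ro b (u ++ v) <
      ((b : ℝ) ^ (u ++ v).length - 1) * c := mul_lt_mul_of_pos_left hcon hd3
  rw [h3] at h4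
  rw [e1, add_mul] at h4
  have h5 : (((b : ℝ) ^ u.length - 1) * (b : ℝ) ^ v.length) * c ≤
      (((b : ℝ) ^ u.length - 1) * (b : ℝ) ^ v.length) * ro b u :=
    mul_le_mul_of_nonneg_left h1 (by positivity)
  have h6 : ((b : ℝ) ^ v.length - 1) * c ≤ ((b : ℝ) ^ v.length - 1) * ro b v :=
    mul_le_mul_of_nonneg_left h2 hd2.le
  linarith only [h4, h5, h6]

lemma ro_cmp {u v : List ℕ} (hu : u ≠ []) (hv : v ≠ []) :
    nb b (u ++ v) ≤ nb b (v ++ u) ↔ ro b u ≤ ro b v := by
  have h1 := den_pos hb hu
  have h2 := den_pos hb hv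
  unfold ro
  rw [div_le_div_iff₀ h1 h2, nb_append, nb_append]
  have e1 : (nb b u * b ^ v.length + nb b v ≤ nb b v * b ^ u.length + nb b u) ↔
      ((nb b u : ℝ) * (b : ℝ) ^ v.length + nb b v ≤ (nb b v : ℝ) * (b : ℝ) ^ u.length + nb b u) := by
    exact_mod_cast Iff.rfl
  rw [e1]
  constructor
  · intro h
    linarith only [h]
  · intro h
    linarith only [h]

lemma ro_cmp_lt {u v : List ℕ} (hu : u ≠ []) (hv : v ≠ []) :
    nb b (u ++ v) < nb b (v ++ u) ↔ ro b u < ro b v := by
  rw [← not_le, ← not_le, ro_cmp hb hv hu]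

/-- between -/
lemma ro_split {u v : List ℕ} (hu : u ≠ []) (hv : v ≠ []) (h : ro b v < ro b u) :
    ro b v < ro b (u ++ v) ∧ ro b (u ++ v) < ro b u := by
  have h3 := ro_avg hb hu hv
  have hd1 := den_pos hb hu
  have hd2 := den_pos hb hv
  have hd3 := den_pos hb (u := u ++ v) (by simp [hu])
  have hp : (0 : ℝ) < (b : ℝ) ^ v.length := by positivity
  have e1 : (b : ℝ) ^ (u ++ v).length - 1 = (((b : ℝ) ^ u.length - 1) * (b : ℝ) ^ v.length) +
      ((b : ℝ) ^ v.length - 1) := by
    rw [List.length_append, pow_add]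
    ring
  have h5 : (((b : ℝ) ^ u.length - 1) * (b : ℝ) ^ v.length) * ro b v <
      (((b : ℝ) ^ u.length - 1) * (b : ℝ) ^ v.length) * ro b u :=
    mul_lt_mul_of_pos_left h (by positivity)
  have h6 : ((b : ℝ) ^ v.length - 1) * ro b v < ((b : ℝ) ^ v.length - 1) * ro b u :=
    mul_lt_mul_of_pos_left h hd2
  constructor
  · refine lt_of_mul_lt_mul_left (a := (b : ℝ) ^ (u ++ v).length - 1) ?_ hd3.le
    rw [h3, e1, add_mul]
    linarith only [h5]
  · refine lt_of_mul_lt_mul_left (a := (b : ℝ) ^ (u ++ v).length - 1) ?_ hd3.le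
    rw [h3, e1, add_mul]
    linarith only [h6]

end

/-- Lyndon words for the reversed order: strictly larger than all their rotations -/
def Lyn (w : List ℕ) : Prop :=
  w ≠ [] ∧ ∀ p q : List ℕ, w = p ++ q → p ≠ [] → q ≠ [] → q ++ p < p ++ q

lemma Lyn.ro {b : ℕ} (hb : 2 ≤ b) {w : List ℕ} (h : Lyn w) (hw : ∀ a ∈ w, a < b)
    {p q : List ℕ} (he : w = p ++ q) (hp : p ≠ []) (hq : q ≠ []) : ro b q < ro b p := by
  have h1 := h.2 p q he hp hq
  rw [← ro_cmp_lt hb hq hp]
  refine lex_nb ?_ ?_ ?_ h1
  · rw [List.length_append, List.length_append, add_comm]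
  · intro a ha
    apply hw
    rw [he]
    rcases List.mem_append.1 ha with ha | ha
    · exact List.mem_append_right _ ha
    · exact List.mem_append_left _ ha
  · intro a ha
    apply hw
    rw [he]
    exact ha

/-- a nonempty suffix -/
lemma exists_suffix {b : ℕ} (hb : 2 ≤ b) {c : ℝ} : ∀ (B : List (List ℕ)) (l' z : List ℕ), l' ≠ [] →
    l' ++ z = B.flatten → (∀ m ∈ B, Lyn m ∧ (∀ a ∈ m, a < b) ∧ c ≤ ro b m) →
    ∃ p, p ≠ [] ∧ p <:+ l' ∧ c ≤ ro b p := by
  intro B
  induction B with
  | nil =>
    intro l' z hl' he _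
    rw [List.flatten_nil, List.append_eq_nil_iff] at he
    exact absurd he.1 hl'
  | cons m B ih =>
    intro l' z hl' he hB
    rw [List.flatten_cons] at he
    have hm := hB m List.mem_cons_self
    rcases List.append_eq_append_iff.1 he with ⟨a', h1, h2⟩ | ⟨c', h1, h2⟩
    · -- m = l' ++ a'
      refine ⟨l', hl', List.suffix_refl _, ?_⟩
      by_cases ha : a' = []
      · rw [ha, List.append_nil] at h1
        rw [← h1]
        exact hm.2.2
      · have h3 := hm.1.ro hb hm.2.1 h1 hl' ha
        have h4 := ro_split hb hl' ha h3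
        rw [← h1] at h4
        exact hm.2.2.trans h4.2.le
    · -- l' = m ++ c'
      by_cases hc : c' = []
      · rw [hc, List.append_nil] at h1
        refine ⟨l', hl', List.suffix_refl _, ?_⟩
        rw [h1]
        exact hm.2.2
      · obtain ⟨p, hp, hp', hp''⟩ := ih c' z hc h2.symm
          (fun m hm => hB m (List.mem_cons_of_mem _ hm))
        refine ⟨p, hp, hp'.trans ?_, hp''⟩
        rw [h1]
        exact List.suffix_append _ _

/-- **uniqueness of the factorization** -/
lemma fact_unique {b : ℕ} (hb : 2 ≤ b) : ∀ (A B : List (List ℕ)),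
    (∀ m ∈ A, Lyn m ∧ ∀ a ∈ m, a < b) → (∀ m ∈ B, Lyn m ∧ ∀ a ∈ m, a < b) →
    A.Pairwise (fun u v => ro b u ≤ ro b v) → B.Pairwise (fun u v => ro b u ≤ ro b v) →
    A.flatten = B.flatten → A = B := by
  have key : ∀ (l m : List ℕ) (A B : List (List ℕ)), (Lyn l ∧ ∀ a ∈ l, a < b) →
      (∀ m ∈ B, Lyn m ∧ ∀ a ∈ m, a < b) → m ≠ [] → (∀ v ∈ B, ro b m ≤ ro b v) →
      l ++ A.flatten = m ++ B.flatten → m.length < l.length → False := by
    intro l m A B hl hB hm0 hBm he hlen
    rcases List.append_eq_append_iff.1 he with ⟨a', h1, _⟩ | ⟨c', h1, h2⟩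
    · rw [h1, List.length_append] at hlen
      omega
    · have hc : c' ≠ [] := by
        intro h
        rw [h, List.append_nil] at h1
        rw [h1] at hlen
        omega
      obtain ⟨p, hp, hp', hp''⟩ := exists_suffix hb (c := ro b m) B c' A.flatten hc h2.symm
        (fun v hv => ⟨(hB v hv).1, (hB v hv).2, hBm v hv⟩)
      -- l = m ++ c'
      have h3 := hl.1.ro hb hl.2 h1 hm0 hc
      have h4 := (ro_split hb hm0 hc h3).2
      rw [← h1] at h4
      obtain ⟨t, ht⟩ := hp'
      have h5 : l = (m ++ t) ++ p := by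
        rw [h1, ← ht, List.append_assoc]
      have h6 := hl.1.ro hb hl.2 h5 (by simp [hm0]) hp
      have h7 := (ro_split hb (u := m ++ t) (by simp [hm0]) hp h6).1
      rw [← h5] at h7
      linarith only [h4, h7, hp'']
  intro A
  induction A with
  | nil =>
    intro B _ hB _ _ he
    cases B with
    | nil => rfl
    | cons m B =>
      rw [List.flatten_nil, List.flatten_cons] at he
      have h1 := (List.append_eq_nil_iff.1 he.symm).1
      exact absurd h1 (hB m List.mem_cons_self).1.1
  | cons l A ih =>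
    intro B hA hB hAs hBs he
    cases B with
    | nil =>
      rw [List.flatten_nil, List.flatten_cons] at he
      have h1 := (List.append_eq_nil_iff.1 he).1
      exact absurd h1 (hA l List.mem_cons_self).1.1
    | cons m B =>
      rw [List.flatten_cons, List.flatten_cons] at he
      have hl := hA l List.mem_cons_self
      have hm := hB m List.mem_cons_self
      rw [List.pairwise_cons] at hAs hBs
      rcases lt_trichotomy l.length m.length with h1 | h1 | h1
      · exact (key m l B A hm (fun v hv => hA v (List.mem_cons_of_mem _ hv)) hl.1.1 hAs.1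
          he.symm h1).elim
      · obtain ⟨h2, h3⟩ := List.append_inj he h1
        rw [h2, ih B (fun v hv => hA v (List.mem_cons_of_mem _ hv))
          (fun v hv => hB v (List.mem_cons_of_mem _ hv)) hAs.2 hBs.2 h3]
      · exact (key l m A B hl (fun v hv => hB v (List.mem_cons_of_mem _ hv)) hm.1.1 hBs.1
          he h1).elim

end Pool.Agent.Y760.LY
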