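import Pool.Agent.Y760.LY.A

/-!
# Interleavings of Lyndon words (helper760)
-/

set_option autoImplicit false

namespace Pool.Agent.Y760.LY

/-- the word of a list of pieces -/
def cat (c : List (ℕ × List ℕ)) : List ℕ := (c.map Prod.snd).flatten

/-- the word of one colour -/
def col (i : ℕ) (c : List (ℕ × List ℕ)) : List ℕ := cat (c.filter fun z => z.1 = i)

lemma cat_nil : cat [] = [] := rfl
lemma cat_cons (z : ℕ × List ℕ) (c : List (ℕ × List ℕ)) : cat (z :: c) = z.2 ++ cat c := rfl
lemma cat_append (c d : List (ℕ × List ℕ)) : cat (c ++ d) = cat c ++ cat d := by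
  unfold cat
  rw [List.map_append, List.flatten_append]

lemma col_nil (i : ℕ) : col i [] = [] := rfl
lemma col_append (i : ℕ) (c d : List (ℕ × List ℕ)) : col i (c ++ d) = col i c ++ col i d := by
  unfold col
  rw [List.filter_append, cat_append]
lemma col_cons_eq {i : ℕ} {z : ℕ × List ℕ} (h : z.1 = i) (c : List (ℕ × List ℕ)) :
    col i (z :: c) = z.2 ++ col i c := by
  unfold col
  rw [List.filter_cons_of_pos (by simpa using h), cat_cons]
lemma col_cons_ne {i : ℕ} {z : ℕ × List ℕ} (h : z.1 ≠ i) (c : List (ℕ × List ℕ)) :
    col i (z :: c) = col i c := by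
  unfold col
  rw [List.filter_cons_of_neg (by simpa using h)]

lemma col_eq_nil {i : ℕ} {c : List (ℕ × List ℕ)} (h : ∀ z ∈ c, z.1 ≠ i) : col i c = [] := by
  induction c with
  | nil => rfl
  | cons z c ih =>
    rw [col_cons_ne (h z List.mem_cons_self)]
    exact ih fun z' hz' => h z' (List.mem_cons_of_mem _ hz')

/-- consecutive pieces of one colour are sorted -/
lemma chain_of {b : ℕ} (i : ℕ) : ∀ c : List (ℕ × List ℕ),
    (∀ A z U z' B, c = A ++ (z :: (U ++ (z' :: B))) → z.1 = i → z'.1 = i → (∀ u ∈ U, u.1 ≠ i) →
      ro b z.2 ≤ ro b z'.2) →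
    (c.filter fun z => z.1 = i).IsChain fun z z' => ro b z.2 ≤ ro b z'.2 := by
  intro c
  induction c with
  | nil =>
    intro _
    exact List.IsChain.nil
  | cons w c ih =>
    intro h
    have h1 := ih fun A z U z' B hc => h (w :: A) z U z' B (by rw [hc, List.cons_append])
    by_cases hw : w.1 = i
    · rw [List.filter_cons_of_pos (by simpa using hw)]
      cases hF : c.filter fun z => z.1 = i with
      | nil => exact List.IsChain.singleton _
      | cons z' F =>
        rw [hF] at h1
        rw [List.isChain_cons_cons]
        refine ⟨?_, h1⟩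
        rw [List.filter_eq_cons_iff] at hF
        obtain ⟨U, B, hc, hU, hz', _⟩ := hF
        refine h [] w U z' B (by rw [hc, List.nil_append]) hw (by simpa using hz') fun u hu => ?_
        simpa using hU u hu
    · rw [List.filter_cons_of_neg (by simpa using hw)]
      exact h1

lemma ro_cat {b : ℕ} (hb : 2 ≤ b) {c : ℝ} : ∀ F : List (ℕ × List ℕ), F ≠ [] →
    (∀ z ∈ F, z.2 ≠ [] ∧ c ≤ ro b z.2) → cat F ≠ [] ∧ c ≤ ro b (cat F) := by
  intro F
  induction F with
  | nil => intro h; exact absurd rfl h
  | cons z F ih =>
    intro _ h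
    have h1 := h z List.mem_cons_self
    rw [cat_cons]
    by_cases hF : F = []
    · rw [hF, cat_nil, List.append_nil]
      exact h1
    · have h2 := ih hF fun z' hz' => h z' (List.mem_cons_of_mem _ hz')
      exact ⟨by simp [h1.1], ro_between_le hb h1.1 h2.1 h1.2 h2.2⟩

/-- **merging** -/
lemma merge {b : ℕ} (hb : 2 ≤ b) : ∀ (n : ℕ) (c : List (ℕ × List ℕ)), c.length = n →
    (∀ z ∈ c, z.2 ≠ []) → (∀ z ∈ c, ∀ a ∈ z.2, a < b) → (∀ i, col i c = [] ∨ Lyn (col i c)) →
    ∃ c' : List (ℕ × List ℕ), (c'.map Prod.fst).Nodup ∧ (∀ z ∈ c', z.2 ≠ []) ∧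
      (∀ i, col i c' = col i c) ∧ (cat c').length = (cat c).length ∧ nb b (cat c') ≤ nb b (cat c) := by
  intro n
  induction n with
  | zero =>
    intro c hc _ _ _
    rw [List.length_eq_zero_iff] at hc
    subst hc
    exact ⟨[], List.nodup_nil, fun z hz => absurd hz List.not_mem_nil, fun _ => rfl, rfl, le_rfl⟩
  | succ n ih =>
    intro c hc hne hlt hcol
    by_cases hnd : (c.map Prod.fst).Nodup
    · exact ⟨c, hnd, hne, fun _ => rfl, rfl, le_rfl⟩
    -- a bad pair
    obtain ⟨A, z, U, z', B, hcc, hzz, hU, hro⟩ : ∃ A z U z' B, c = A ++ (z :: (U ++ (z' :: B))) ∧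
        z'.1 = z.1 ∧ (∀ u ∈ U, u.1 ≠ z.1) ∧ ro b z'.2 < ro b z.2 := by
      by_contra hcon
      push Not at hcon
      apply hnd
      have hch : ∀ i, (c.filter fun z => z.1 = i).IsChain fun z z' => ro b z.2 ≤ ro b z'.2 :=
        fun i => chain_of i c fun A z U z' B h1 h2 h3 h4 => by
          refine hcon A z U z' B h1 (by rw [h2, h3]) fun u hu => ?_
          rw [h2]
          exact h4 u hu
      have hone : ∀ i, (c.filter fun z => z.1 = i).length ≤ 1 := by
        intro i
        by_contra h2
        push Not at h2
        obtain ⟨z1, z2, F, hF⟩ : ∃ z1 z2 F, (c.filter fun z => z.1 = i) = z1 :: z2 :: F := by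
          cases h3 : (c.filter fun z => z.1 = i) with
          | nil => rw [h3] at h2; simp at h2
          | cons z1 F' =>
            cases F' with
            | nil => rw [h3] at h2; simp at h2
            | cons z2 F => exact ⟨z1, z2, F, rfl⟩
        have hmem : ∀ z ∈ (c.filter fun z => z.1 = i), z.2 ≠ [] := fun z hz =>
          hne z (List.mem_of_mem_filter hz)
        have h4 := hch i
        rw [hF] at h4 hmem
        have h4' : (z1 :: z2 :: F).Pairwise fun z z' => ro b z.2 ≤ ro b z'.2 := by
          have : IsTrans (ℕ × List ℕ) fun z z' => ro b z.2 ≤ ro b z'.2 :=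
            ⟨fun _ _ _ h h' => h.trans h'⟩
          exact List.isChain_iff_pairwise.1 h4
        rw [List.pairwise_cons] at h4'
        have h5 := ro_cat hb (c := ro b z1.2) (z2 :: F) (List.cons_ne_nil _ _) fun z hz =>
          ⟨hmem z (List.mem_cons_of_mem _ hz), h4'.1 z hz⟩
        have h6 : col i c = z1.2 ++ cat (z2 :: F) := by
          unfold col
          rw [hF, cat_cons]
        have hz1 := hmem z1 List.mem_cons_self
        have h7 : Lyn (col i c) := (hcol i).resolve_left (by
          rw [h6]
          simp [hz1])
        have h8 : ∀ a ∈ col i c, a < b := by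
          intro a ha
          unfold col cat at ha
          rw [List.mem_flatten] at ha
          obtain ⟨m, hm, ha⟩ := ha
          obtain ⟨z, hz, rfl⟩ := List.mem_map.1 hm
          exact hlt z (List.mem_of_mem_filter hz) a ha
        have h9 := h7.ro hb h8 h6 hz1 h5.1
        linarith only [h9, h5.2]
      rw [List.nodup_iff_count_le_one]
      intro i
      have h3 := hone i
      have h4 : (c.map Prod.fst).count i = (c.filter fun z => z.1 = i).length := by
        rw [List.count_eq_countP, List.countP_map, List.countP_eq_length_filter]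
        congr 1
      rw [h4]
      exact h3
    set i : ℕ := z.1 with hi
    have hz0 : z.2 ≠ [] := hne z (by rw [hcc]; simp)
    have hz0' : z'.2 ≠ [] := hne z' (by rw [hcc]; simp)
    have hU0 : cat U = [] ∨ cat U ≠ [] := em _
    have hcat : cat c = cat A ++ (z.2 ++ (cat U ++ (z'.2 ++ cat B))) := by
      rw [hcc, cat_append, cat_cons, cat_append, cat_cons]
    have hcolU : col i U = [] := col_eq_nil hU
    have hcolc : ∀ j, col j c = col j A ++ (col j [z] ++ (col j U ++ (col j [z'] ++ col j B))) := by
      intro j
      rw [hcc, col_append]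
      congr 1
      have e1 : (z :: (U ++ (z' :: B))) = [z] ++ (U ++ ([z'] ++ B)) := rfl
      rw [e1, col_append, col_append, col_append]
    have hlen : c.length = A.length + (U.length + B.length + 2) := by
      rw [hcc]
      simp only [List.length_append, List.length_cons]
      omega
    -- the general step
    have step : ∀ c1 : List (ℕ × List ℕ), c1.length = n → (∀ w ∈ c1, w = (i, z.2 ++ z'.2) ∨ w ∈ c) →
        (∀ j, col j c1 = col j c) → (cat c1).length = (cat c).length → nb b (cat c1) ≤ nb b (cat c) →
        ∃ c' : List (ℕ × List ℕ), (c'.map Prod.fst).Nodup ∧ (∀ z ∈ c', z.2 ≠ []) ∧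
          (∀ i, col i c' = col i c) ∧ (cat c').length = (cat c).length ∧
          nb b (cat c') ≤ nb b (cat c) := by
      intro c1 h1 h2 h3 h4 h5
      obtain ⟨c', g1, g2, g3, g4, g5⟩ := ih c1 h1 (by
          intro w hw
          rcases h2 w hw with rfl | hw
          · simp [hz0]
          · exact hne w hw) (by
          intro w hw a ha
          rcases h2 w hw with rfl | hw
          · rcases List.mem_append.1 ha with ha | ha
            · exact hlt z (by rw [hcc]; simp) a ha
            · exact hlt z' (by rw [hcc]; simp) a ha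
          · exact hlt w hw a ha) (fun j => by rw [h3 j]; exact hcol j)
      exact ⟨c', g1, g2, fun j => (g3 j).trans (h3 j), g4.trans h4, g5.trans h5⟩
    have hzi : col i [z] = z.2 := by
      rw [col_cons_eq rfl, col_nil, List.append_nil]
    have hzi' : col i [z'] = z'.2 := by
      rw [col_cons_eq hzz, col_nil, List.append_nil]
    have hzn : ∀ j, j ≠ i → col j [z] = [] := fun j hj => by
      rw [col_cons_ne (Ne.symm hj), col_nil]
    have hzn' : ∀ j, j ≠ i → col j [z'] = [] := fun j hj => by
      rw [col_cons_ne (by rw [hzz]; exact Ne.symm hj), col_nil]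
    have hnew : ∀ j, col j [(i, z.2 ++ z'.2)] = col j [z] ++ col j [z'] := by
      intro j
      by_cases hj : j = i
      · rw [hj, hzi, hzi', col_cons_eq (i := i) (z := (i, z.2 ++ z'.2)) rfl, col_nil, List.append_nil]
      · rw [col_cons_ne (by exact Ne.symm hj), col_nil, hzn j hj, hzn' j hj, List.append_nil]
    have hUz : ∀ j, col j U ++ col j [z'] = col j [z'] ++ col j U := by
      intro j
      by_cases hj : j = i
      · rw [hj, hcolU, List.append_nil, List.nil_append]
      · rw [hzn' j hj, List.append_nil, List.nil_append]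
    have hUz2 : ∀ j, col j [z] ++ col j U = col j U ++ col j [z] := by
      intro j
      by_cases hj : j = i
      · rw [hj, hcolU, List.append_nil, List.nil_append]
      · rw [hzn j hj, List.append_nil, List.nil_append]
    by_cases hcase : cat U = [] ∨ ro b z'.2 ≤ ro b (cat U)
    · -- move `z'` to the left
      refine step (A ++ ([(i, z.2 ++ z'.2)] ++ (U ++ B))) ?_ ?_ ?_ ?_ ?_
      · simp only [List.length_append, List.length_cons, List.length_nil]
        omega
      · intro w hw
        rw [List.mem_append, List.mem_append, List.mem_append, List.mem_singleton] at hw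
        rcases hw with hw | hw | hw | hw
        · right; rw [hcc]; simp [hw]
        · exact Or.inl hw
        · right; rw [hcc]; simp [hw]
        · right; rw [hcc]; simp [hw]
      · intro j
        rw [hcolc j, col_append, col_append, col_append, hnew j]
        congr 1
        rw [List.append_assoc]
        congr 1
        rw [← List.append_assoc, ← List.append_assoc, hUz j]
      · rw [hcat]
        simp only [cat_append, cat_cons, cat_nil, List.length_append, List.length_nil]
        omega
      · rw [hcat]
        have e1 : cat (A ++ ([(i, z.2 ++ z'.2)] ++ (U ++ B))) =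
            (cat A ++ z.2) ++ ((z'.2 ++ cat U) ++ cat B) := by
          simp only [cat_append, cat_cons, cat_nil, List.append_assoc, List.append_nil]
        have e2 : cat A ++ (z.2 ++ (cat U ++ (z'.2 ++ cat B))) =
            (cat A ++ z.2) ++ ((cat U ++ z'.2) ++ cat B) := by
          simp only [List.append_assoc]
        rw [e1, e2]
        refine nb_mid _ _ (by simp only [List.length_append]; omega) ?_
        rcases hcase with h | h
        · rw [h, List.append_nil, List.nil_append]
        · by_cases h' : cat U = []
          · rw [h', List.append_nil, List.nil_append]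
          · exact (ro_cmp hb hz0' h').2 h
    · push Not at hcase
      obtain ⟨hU1, hU2⟩ := hcase
      refine step (A ++ (U ++ ([(i, z.2 ++ z'.2)] ++ B))) ?_ ?_ ?_ ?_ ?_
      · simp only [List.length_append, List.length_cons, List.length_nil]
        omega
      · intro w hw
        rw [List.mem_append, List.mem_append, List.mem_append, List.mem_singleton] at hw
        rcases hw with hw | hw | hw | hw
        · right; rw [hcc]; simp [hw]
        · right; rw [hcc]; simp [hw]
        · exact Or.inl hw
        · right; rw [hcc]; simp [hw]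
      · intro j
        rw [hcolc j, col_append, col_append, col_append, hnew j]
        congr 1
        rw [List.append_assoc, ← List.append_assoc (col j U), ← hUz2 j]
        simp only [List.append_assoc]
      · rw [hcat]
        simp only [cat_append, cat_cons, cat_nil, List.length_append, List.length_nil]
        omega
      · rw [hcat]
        have e1 : cat (A ++ (U ++ ([(i, z.2 ++ z'.2)] ++ B))) =
            cat A ++ ((cat U ++ z.2) ++ (z'.2 ++ cat B)) := by
          simp only [cat_append, cat_cons, cat_nil, List.append_assoc, List.append_nil]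
        have e2 : cat A ++ (z.2 ++ (cat U ++ (z'.2 ++ cat B))) =
            cat A ++ ((z.2 ++ cat U) ++ (z'.2 ++ cat B)) := by
          simp only [List.append_assoc]
        rw [e1, e2]
        refine nb_mid _ _ (by simp only [List.length_append]; omega) ?_
        exact (ro_cmp hb hU1 hz0).2 (hU2.trans hro).le

/-- the list of the words with colours -/
def cw (M : List (List ℕ)) : List (ℕ × List ℕ) := (List.range M.length).map fun i => (i, M.getD i [])

lemma cw_snd (M : List (List ℕ)) : (cw M).map Prod.snd = M := by
  unfold cw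
  rw [List.map_map]
  refine List.ext_getElem (by simp) fun i h1 h2 => ?_
  simp only [List.getElem_map, List.getElem_range, Function.comp]
  rw [List.getD_eq_getElem?_getD, List.getElem?_eq_getElem h2, Option.getD_some]

/-- **interleavings are not smaller than concatenations** -/
lemma inter {b : ℕ} (hb : 2 ≤ b) (M : List (List ℕ)) (hM : ∀ m ∈ M, Lyn m ∧ ∀ a ∈ m, a < b)
    (c : List (ℕ × List ℕ)) (hne : ∀ z ∈ c, z.2 ≠ []) (hlt : ∀ z ∈ c, ∀ a ∈ z.2, a < b)
    (hcol : ∀ i, col i c = M.getD i []) :
    ∃ M' : List (List ℕ), M'.Perm M ∧ nb b M'.flatten ≤ nb b (cat c) := by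
  have hgetD : ∀ i, M.getD i [] = [] ∨ Lyn (M.getD i []) := by
    intro i
    rcases Nat.lt_or_ge i M.length with h | h
    · right
      rw [List.getD_eq_getElem?_getD, List.getElem?_eq_getElem h, Option.getD_some]
      exact (hM _ (List.getElem_mem h)).1
    · left
      rw [List.getD_eq_getElem?_getD, List.getElem?_eq_none h, Option.getD_none]
  obtain ⟨c', h1, h2, h3, _, h5⟩ := merge hb c.length c rfl hne hlt
    (fun i => by rw [hcol i]; exact hgetD i)
  have hz : ∀ z ∈ c', z.2 = M.getD z.1 [] := by
    intro z hz
    rw [← hcol z.1, ← h3 z.1]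
    obtain ⟨A, B, rfl⟩ := List.append_of_mem hz
    rw [List.map_append, List.map_cons, List.nodup_append, List.nodup_cons] at h1
    have hA : ∀ w ∈ A, w.1 ≠ z.1 := fun w hw => h1.2.2 w.1 (List.mem_map_of_mem hw) z.1
      List.mem_cons_self
    have hB : ∀ w ∈ B, w.1 ≠ z.1 := fun w hw h => h1.2.1.1 (h ▸ List.mem_map_of_mem hw)
    rw [col_append, col_eq_nil hA, col_cons_eq rfl, col_eq_nil hB, List.append_nil,
      List.nil_append]
  have hperm : c'.Perm (cw M) := by
    rw [List.perm_ext_iff_of_nodup (List.Nodup.of_map _ h1) ?_]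
    · rintro ⟨i, w⟩
      unfold cw
      rw [List.mem_map]
      constructor
      · intro hw
        have h6 := hz _ hw
        have h7 := h2 _ hw
        simp only at h6 h7
        refine ⟨i, ?_, by rw [← h6]⟩
        rw [List.mem_range]
        by_contra h8
        push Not at h8
        rw [List.getD_eq_getElem?_getD, List.getElem?_eq_none h8, Option.getD_none] at h6
        exact h7 h6
      · rintro ⟨i', hi', h6⟩
        rw [Prod.mk.injEq] at h6
        obtain ⟨rfl, rfl⟩ := h6
        rw [List.mem_range] at hi'
        have h7 : col i' c' ≠ [] := by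
          rw [h3, hcol]
          rw [List.getD_eq_getElem?_getD, List.getElem?_eq_getElem hi', Option.getD_some]
          exact (hM _ (List.getElem_mem hi')).1.1
        have h8 : ∃ z ∈ c', z.1 = i' := by
          by_contra h9
          push Not at h9
          exact h7 (col_eq_nil h9)
        obtain ⟨z, hzc, hzi⟩ := h8
        have h9 := hz z hzc
        rw [hzi] at h9
        have h10 : z = (i', M.getD i' []) := Prod.ext hzi h9
        rw [← h10]
        exact hzc
    · refine List.Nodup.of_map Prod.fst ?_
      unfold cw
      rw [List.map_map]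
      have e1 : (Prod.fst ∘ fun i => (i, M.getD i [])) = id := rfl
      rw [e1, List.map_id]
      exact List.nodup_range
  refine ⟨c'.map Prod.snd, ?_, h5⟩
  have h6 := hperm.map Prod.snd
  rwa [cw_snd] at h6

lemma chain_adj {α : Type*} {R : α → α → Prop} : ∀ S : List α,
    (∀ A u v B, S = A ++ (u :: v :: B) → R u v) → S.IsChain R := by
  intro S
  induction S with
  | nil => intro _; exact List.IsChain.nil
  | cons w S ih =>
    intro h
    have h1 := ih fun A u v B hS => h (w :: A) u v B (by rw [hS, List.cons_append])
    cases S with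
    | nil => exact List.IsChain.singleton _
    | cons v B =>
      rw [List.isChain_cons_cons]
      exact ⟨h [] w v B rfl, h1⟩

/-- the least arrangement -/
lemma arr {b : ℕ} (hb : 2 ≤ b) (M : List (List ℕ)) (hM : ∀ m ∈ M, Lyn m) :
    ∃ S : List (List ℕ), S.Perm M ∧ (∀ M' : List (List ℕ), M'.Perm M →
      nb b S.flatten ≤ nb b M'.flatten) ∧ S.Pairwise (fun u v => ro b u ≤ ro b v) := by
  obtain ⟨t, ⟨S, hS, rfl⟩, hmin⟩ := WellFounded.has_min (r := fun x y : ℕ => x < y)
    wellFounded_lt {t | ∃ S : List (List ℕ), S.Perm M ∧ nb b S.flatten = t}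
    ⟨nb b M.flatten, M, List.Perm.refl _, rfl⟩
  have hmin' : ∀ M' : List (List ℕ), M'.Perm M → nb b S.flatten ≤ nb b M'.flatten := fun M' hM' =>
    not_lt.1 (hmin _ ⟨M', hM', rfl⟩)
  refine ⟨S, hS, hmin', ?_⟩
  have : IsTrans (List ℕ) fun u v => ro b u ≤ ro b v := ⟨fun _ _ _ h h' => h.trans h'⟩
  refine List.isChain_iff_pairwise.1 (chain_adj S fun A u v B hAB => ?_)
  have hu : u ≠ [] := (hM u (hS.subset (by rw [hAB]; simp))).1
  have hv : v ≠ [] := (hM v (hS.subset (by rw [hAB]; simp))).1
  rw [← ro_cmp hb hu hv]
  have h1 := hmin' (A ++ (v :: u :: B)) (by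
    refine List.Perm.trans ?_ hS
    rw [hAB]
    exact List.Perm.append_left A (List.Perm.swap u v B))
  rw [hAB] at h1
  simp only [List.flatten_append, List.flatten_cons] at h1
  have e1 : A.flatten ++ (u ++ (v ++ B.flatten)) = A.flatten ++ ((u ++ v) ++ B.flatten) := by
    rw [List.append_assoc]
  have e2 : A.flatten ++ (v ++ (u ++ B.flatten)) = A.flatten ++ ((v ++ u) ++ B.flatten) := by
    rw [List.append_assoc]
  rw [e1, e2, nb_append b A.flatten, nb_append b A.flatten, nb_append b (u ++ v) B.flatten,
    nb_append b (v ++ u) B.flatten] at h1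
  simp only [List.length_append] at h1
  rw [Nat.add_comm v.length u.length] at h1
  have h2 : nb b (u ++ v) * b ^ B.flatten.length ≤ nb b (v ++ u) * b ^ B.flatten.length := by
    omega
  exact Nat.le_of_mul_le_mul_right h2 (by positivity)

end Pool.Agent.Y760.LY
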