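import Pool.Agent.Y760.LY.B
import Pool.Agent.Y760.ZF.Prod

/-!
# Leading words of stuffle products of Lyndon words (helper760)
-/

set_option autoImplicit false

namespace Pool.Agent.Y760.LY

open Pool.Agent.Y760.ZF (sti stil sti_length)

/-- shifted colours -/
def shf (c : List (ℕ × List ℕ)) : List (ℕ × List ℕ) := c.map fun z => (z.1 + 1, z.2)

lemma shf_nil : shf [] = [] := rfl
lemma shf_cons (z : ℕ × List ℕ) (c : List (ℕ × List ℕ)) : shf (z :: c) = (z.1 + 1, z.2) :: shf c :=
  rfl

lemma cat_shf (c : List (ℕ × List ℕ)) : cat (shf c) = cat c := by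
  unfold cat shf
  rw [List.map_map]
  rfl

lemma col_shf_zero (c : List (ℕ × List ℕ)) : col 0 (shf c) = [] := by
  refine col_eq_nil fun z hz => ?_
  unfold shf at hz
  obtain ⟨w, _, rfl⟩ := List.mem_map.1 hz
  exact Nat.succ_ne_zero _

lemma col_shf (i : ℕ) (c : List (ℕ × List ℕ)) : col (i + 1) (shf c) = col i c := by
  induction c with
  | nil => rfl
  | cons z c ih =>
    rw [shf_cons]
    by_cases h : z.1 = i
    · rw [col_cons_eq h, col_cons_eq (i := i + 1) (z := (z.1 + 1, z.2)) (by simpa using h), ih]
    · rw [col_cons_ne h, col_cons_ne (i := i + 1) (z := (z.1 + 1, z.2)) (by simpa using h), ih]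

/-- the letters of a word in colour zero -/
def zr (u : List ℕ) : List (ℕ × List ℕ) := u.map fun a => (0, [a])

lemma cat_zr (u : List ℕ) : cat (zr u) = u := by
  induction u with
  | nil => rfl
  | cons a u ih =>
    show [a] ++ cat (zr u) = _
    rw [ih]
    rfl

lemma col_zr (u : List ℕ) : col 0 (zr u) = u := by
  induction u with
  | nil => rfl
  | cons a u ih =>
    have e1 : zr (a :: u) = (0, [a]) :: zr u := rfl
    rw [e1, col_cons_eq (i := 0) (z := (0, [a])) rfl, ih]
    rfl

lemma col_zr_succ (i : ℕ) (u : List ℕ) : col (i + 1) (zr u) = [] := by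
  refine col_eq_nil fun z hz => ?_
  unfold zr at hz
  obtain ⟨w, _, rfl⟩ := List.mem_map.1 hz
  exact (Nat.succ_ne_zero _).symm

/-- **words of full length in a stuffle product of two words are interleavings** -/
lemma comb (u v : List ℕ) : ∀ x ∈ sti u v, x.length = u.length + v.length →
    ∀ c : List (ℕ × List ℕ), (∀ z ∈ c, z.2.length = 1) → cat c = v →
    ∃ c' : List (ℕ × List ℕ), (∀ z ∈ c', z.2.length = 1) ∧ cat c' = x ∧ col 0 c' = u ∧
      ∀ i, col (i + 1) c' = col i c := by
  induction u, v using sti.induct with
  | case1 v =>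
    intro x hx _ c hc hcv
    rw [sti, List.mem_singleton] at hx
    refine ⟨shf c, ?_, ?_, col_shf_zero c, fun i => col_shf i c⟩
    · intro z hz
      unfold shf at hz
      obtain ⟨w, hw, rfl⟩ := List.mem_map.1 hz
      exact hc w hw
    · rw [cat_shf, hcv, hx]
  | case2 a u =>
    intro x hx _ c hc hcv
    rw [sti, List.mem_singleton] at hx
    have hc0 : c = [] := by
      cases c with
      | nil => rfl
      | cons z c =>
        rw [cat_cons] at hcv
        have h1 := hc z List.mem_cons_self
        rw [(List.append_eq_nil_iff.1 hcv).1] at h1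
        simp at h1
    refine ⟨zr (a :: u), ?_, ?_, col_zr _, fun i => ?_⟩
    · intro z hz
      unfold zr at hz
      obtain ⟨w, _, rfl⟩ := List.mem_map.1 hz
      rfl
    · rw [cat_zr, hx]
    · rw [col_zr_succ, hc0, col_nil]
  | case3 a u b v ih1 ih2 ih3 =>
    intro x hx hlen c hc hcv
    rw [sti, List.mem_append, List.mem_append, List.mem_map, List.mem_map, List.mem_map] at hx
    rcases hx with (⟨x', hx', rfl⟩ | ⟨x', hx', rfl⟩) | ⟨x', hx', rfl⟩
    · obtain ⟨c', h1, h2, h3, h4⟩ := ih1 x' hx' (by
        simp only [List.length_cons] at hlen ⊢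
        omega) c hc hcv
      refine ⟨(0, [a]) :: c', ?_, ?_, ?_, fun i => ?_⟩
      · intro z hz
        rcases List.mem_cons.1 hz with rfl | hz
        · rfl
        · exact h1 z hz
      · rw [cat_cons, h2]
        rfl
      · rw [col_cons_eq (i := 0) (z := (0, [a])) rfl, h3]
        rfl
      · rw [col_cons_ne (i := i + 1) (z := (0, [a])) (Nat.succ_ne_zero i).symm, h4]
    · cases c with
      | nil =>
        rw [cat_nil] at hcv
        simp at hcv
      | cons z c =>
        have hz := hc z List.mem_cons_self
        rw [cat_cons] at hcv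
        obtain ⟨y, hy⟩ := List.length_eq_one_iff.1 hz
        rw [hy, List.singleton_append, List.cons_eq_cons] at hcv
        obtain ⟨rfl, hcv⟩ := hcv
        obtain ⟨c', h1, h2, h3, h4⟩ := ih2 x' hx' (by
          simp only [List.length_cons] at hlen ⊢
          omega) c (fun z hz => hc z (List.mem_cons_of_mem _ hz)) hcv
        refine ⟨(z.1 + 1, [y]) :: c', ?_, ?_, ?_, fun i => ?_⟩
        · intro z' hz'
          rcases List.mem_cons.1 hz' with rfl | hz'
          · rfl
          · exact h1 z' hz'
        · rw [cat_cons, h2]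
          rfl
        · rw [col_cons_ne (i := 0) (z := (z.1 + 1, [y])) (Nat.succ_ne_zero _), h3]
        · by_cases h : z.1 = i
          · rw [col_cons_eq (i := i + 1) (z := (z.1 + 1, [y])) (by simpa using h), h4,
              col_cons_eq h, hy]
          · rw [col_cons_ne (i := i + 1) (z := (z.1 + 1, [y])) (by simpa using h), h4,
              col_cons_ne h]
    · have h1 := sti_length u v x' hx'
      simp only [List.length_cons] at hlen
      omega

lemma stil_len (M : List (List ℕ)) : ∀ x ∈ stil M, x.length ≤ M.flatten.length := by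
  induction M with
  | nil =>
    intro x hx
    rw [stil, List.mem_singleton] at hx
    rw [hx]
    exact Nat.zero_le _
  | cons u M ih =>
    intro x hx
    rw [stil, List.mem_flatMap] at hx
    obtain ⟨y, hy, hx⟩ := hx
    have h1 := sti_length u y x hx
    have h2 := ih y hy
    rw [List.flatten_cons, List.length_append]
    omega

/-- **words of full length are interleavings** -/
lemma stil_col (M : List (List ℕ)) : ∀ x ∈ stil M, x.length = M.flatten.length →
    ∃ c : List (ℕ × List ℕ), (∀ z ∈ c, z.2.length = 1) ∧ cat c = x ∧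
      ∀ i, col i c = M.getD i [] := by
  induction M with
  | nil =>
    intro x hx _
    rw [stil, List.mem_singleton] at hx
    refine ⟨[], fun z hz => absurd hz List.not_mem_nil, by rw [hx, cat_nil], fun i => ?_⟩
    rw [col_nil]
    simp
  | cons u M ih =>
    intro x hx hlen
    rw [stil, List.mem_flatMap] at hx
    obtain ⟨y, hy, hx⟩ := hx
    have h1 := sti_length u y x hx
    have h2 := stil_len M y hy
    rw [List.flatten_cons, List.length_append] at hlen
    obtain ⟨c, h3, h4, h5⟩ := ih y hy (by omega)
    obtain ⟨c', g1, g2, g3, g4⟩ := comb u y x hx (by omega) c h3 h4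
    refine ⟨c', g1, g2, fun i => ?_⟩
    cases i with
    | zero =>
      rw [g3]
      simp
    | succ i =>
      rw [g4, h5]
      simp

lemma cat_mem {c : List (ℕ × List ℕ)} {z : ℕ × List ℕ} (hz : z ∈ c) {a : ℕ} (ha : a ∈ z.2) :
    a ∈ cat c := by
  unfold cat
  rw [List.mem_flatten]
  exact ⟨z.2, List.mem_map_of_mem hz, ha⟩

lemma sti_bd {b : ℕ} (u v : List ℕ) : ∀ x ∈ sti u v, x.length = u.length + v.length →
    (∀ a ∈ u, a < b) → (∀ a ∈ v, a < b) → ∀ a ∈ x, a < b := by
  induction u, v using sti.induct with
  | case1 v =>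
    intro x hx _ _ hv
    rw [sti, List.mem_singleton] at hx
    rw [hx]
    exact hv
  | case2 a u =>
    intro x hx _ hu _
    rw [sti, List.mem_singleton] at hx
    rw [hx]
    exact hu
  | case3 a u c v ih1 ih2 ih3 =>
    intro x hx hlen hu hv y hy
    rw [sti, List.mem_append, List.mem_append, List.mem_map, List.mem_map, List.mem_map] at hx
    rcases hx with (⟨x', hx', rfl⟩ | ⟨x', hx', rfl⟩) | ⟨x', hx', rfl⟩
    · rcases List.mem_cons.1 hy with rfl | hy
      · exact hu _ List.mem_cons_self
      · exact ih1 x' hx' (by simp only [List.length_cons] at hlen ⊢; omega)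
          (fun a ha => hu a (List.mem_cons_of_mem _ ha)) hv y hy
    · rcases List.mem_cons.1 hy with rfl | hy
      · exact hv _ List.mem_cons_self
      · exact ih2 x' hx' (by simp only [List.length_cons] at hlen ⊢; omega)
          hu (fun a ha => hv a (List.mem_cons_of_mem _ ha)) y hy
    · have h1 := sti_length u v x' hx'
      simp only [List.length_cons] at hlen
      omega

lemma stil_bd {b : ℕ} (M : List (List ℕ)) : ∀ x ∈ stil M, x.length = M.flatten.length →
    (∀ m ∈ M, ∀ a ∈ m, a < b) → ∀ a ∈ x, a < b := by
  induction M with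
  | nil =>
    intro x hx _ _ a ha
    rw [stil, List.mem_singleton] at hx
    rw [hx] at ha
    exact absurd ha List.not_mem_nil
  | cons u M ih =>
    intro x hx hlen hM
    rw [stil, List.mem_flatMap] at hx
    obtain ⟨y, hy, hx⟩ := hx
    have h1 := sti_length u y x hx
    have h2 := stil_len M y hy
    rw [List.flatten_cons, List.length_append] at hlen
    exact sti_bd u y x hx (by omega) (hM u List.mem_cons_self)
      (ih y hy (by omega) fun m hm => hM m (List.mem_cons_of_mem _ hm))

/-- **the least word of full length** -/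
lemma stil_min {b : ℕ} (hb : 2 ≤ b) (M : List (List ℕ)) (hM : ∀ m ∈ M, Lyn m ∧ ∀ a ∈ m, a < b)
    {x : List ℕ} (hx : x ∈ stil M) (hlen : x.length = M.flatten.length) :
    ∃ M' : List (List ℕ), M'.Perm M ∧ nb b M'.flatten ≤ nb b x := by
  obtain ⟨c, h1, h2, h3⟩ := stil_col M x hx hlen
  have h4 := stil_bd M x hx hlen fun m hm => (hM m hm).2
  rw [← h2]
  refine inter hb M hM c (fun z hz h => ?_) (fun z hz a ha => ?_) h3
  · have h5 := h1 z hz
    rw [h] at h5
    simp at h5
  · rw [← h2] at h4
    exact h4 a (cat_mem hz ha)

lemma mem_sti_right (u B : List ℕ) : u ++ B ∈ sti u B := by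
  induction u with
  | nil =>
    rw [sti, List.nil_append]
    exact List.mem_singleton_self _
  | cons a u ih =>
    cases B with
    | nil =>
      rw [sti, List.append_nil]
      exact List.mem_singleton_self _
    | cons b B =>
      rw [sti, List.mem_append, List.mem_append]
      left
      left
      exact List.mem_map_of_mem ih

lemma mem_sti_mid (u : List ℕ) : ∀ A B : List ℕ, A ++ (u ++ B) ∈ sti u (A ++ B) := by
  intro A
  induction A with
  | nil =>
    intro B
    exact mem_sti_right u B
  | cons b A ih =>
    intro B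
    cases u with
    | nil =>
      rw [sti, List.nil_append]
      exact List.mem_singleton_self _
    | cons a u =>
      rw [List.cons_append, List.cons_append, sti, List.mem_append, List.mem_append]
      left
      right
      exact List.mem_map_of_mem (ih B)

/-- all concatenations occur -/
lemma mem_stil (M : List (List ℕ)) : ∀ M' : List (List ℕ), M'.Perm M → M'.flatten ∈ stil M := by
  induction M with
  | nil =>
    intro M' h
    rw [List.perm_nil.1 h, stil]
    exact List.mem_singleton_self _
  | cons u M ih =>
    intro M' h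
    have hu : u ∈ M' := h.symm.subset List.mem_cons_self
    obtain ⟨A, B, rfl⟩ := List.append_of_mem hu
    have h1 : (A ++ B).Perm M := by
      have h2 : (u :: (A ++ B)).Perm (u :: M) := List.perm_middle.symm.trans h
      exact (List.perm_cons u).1 h2
    rw [stil, List.mem_flatMap]
    refine ⟨(A ++ B).flatten, ih _ h1, ?_⟩
    rw [List.flatten_append, List.flatten_append, List.flatten_cons]
    exact mem_sti_mid u _ _

lemma perm_flatten_length {M M' : List (List ℕ)} (h : M'.Perm M) :
    M'.flatten.length = M.flatten.length := by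
  rw [List.length_flatten, List.length_flatten]
  exact (h.map List.length).sum_eq

end Pool.Agent.Y760.LY
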